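import Pool.Agent.helper88.HT.Spec

/-!
# Row ht:FIN of project HT: from monotone circuits in the rails to hazard free circuits
-/

set_option autoImplicit false

namespace Pool.Agent.helper88.HT

open Pool.Agent.helper38.Neg Pool.Agent.helper55.NT

theorem FIN_rail (β : Bool) (v : Option Bool) :
    (rl β v = β ∧ rl' β v = β) ↔ v = none := by
  cases β <;> rcases v with _ | (_ | _) <;> simp [rl, rl']

theorem FIN_rail_true (v : Option Bool) : rl true v = true ∨ rl' true v = true := by
  rcases v with _ | (_ | _) <;> simp [rl, rl']

theorem FIN_rail_false (v : Option Bool) : rl false v = false ∨ rl' false v = false := by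
  rcases v with _ | (_ | _) <;> simp [rl, rl']

theorem FIN_compl_true (v : Option Bool) (y : Bool)
    (h : (y = true → rl true v = true) ∧ (y = false → rl' true v = true)) :
    v = none ∨ v = some y := by
  revert h
  rcases v with _ | (_ | _) <;> cases y <;> simp [rl, rl']

theorem FIN_compl_false (v : Option Bool) (y : Bool)
    (h : (rl false v = true → y = true) ∧ (rl' false v = true → y = false)) :
    v = none ∨ v = some y := by
  revert h
  rcases v with _ | (_ | _) <;> cases y <;> simp [rl, rl']

theorem FIN (h1 : V3_stmt) (h2 : LIT_stmt) : FIN_stmt := by
  intro n s k l M o Φ g hM hΦ hE hO hU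
  obtain ⟨C', o', hC⟩ := h2 n s M o hM
  have hval : ∀ x, C'.val x o' = g x := by
    intro x
    have e1 := hC true (fun i => some (x i))
    rw [(h1 n (n + s) C').1 x o', hΦ] at e1
    have e2 : Φ (fun i => rl true (some (x i))) (fun i => rl' true (some (x i))) =
        Φ x (fun i => !(x i)) := rfl
    rw [e2, hE x] at e1
    exact e1
  refine ⟨C', o', hval, ?_, ?_⟩
  · intro a ha hx
    have e1 := hC true a
    rw [hΦ] at e1
    have e2 : Φ (fun i => rl true (a i)) (fun i => rl' true (a i)) = false := by
      apply hO
      · intro i
        exact FIN_rail_true (a i)
      · have e3 : (Finset.univ.filter fun i => rl true (a i) = true ∧ rl' true (a i) = true) =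
            Finset.univ.filter fun i => a i = none := by
          apply Finset.filter_congr
          intro i _
          exact FIN_rail true (a i)
        rw [e3]
        exact ha
      · intro y hy
        rw [← hval y]
        exact hx y fun i => FIN_compl_true (a i) (y i) (hy i)
    rw [e2] at e1
    revert e1
    generalize val3 C' a o' = v
    rcases v with _ | (_ | _) <;> simp [rl]
  · intro a ha hx
    have e1 := hC false a
    rw [hΦ] at e1
    have e2 : Φ (fun i => rl false (a i)) (fun i => rl' false (a i)) = true := by
      apply hU
      · intro i
        exact FIN_rail_false (a i)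
      · have e3 : (Finset.univ.filter fun i => rl false (a i) = false ∧ rl' false (a i) = false) =
            Finset.univ.filter fun i => a i = none := by
          apply Finset.filter_congr
          intro i _
          exact FIN_rail false (a i)
        rw [e3]
        exact ha
      · intro y hy
        rw [← hval y]
        exact hx y fun i => FIN_compl_false (a i) (y i) (hy i)
    rw [e2] at e1
    revert e1
    generalize val3 C' a o' = v
    rcases v with _ | (_ | _) <;> simp [rl]

end Pool.Agent.helper88.HT
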